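import Mathlib

namespace Pool.Agent.Results.MP_49e939_nt.Val

open Finset

/-- binary digit sum. -/
def s (n : ℕ) : ℕ := (Nat.digits 2 n).sum

lemma s_double (n : ℕ) : s (2 * n) = s n := by
  rcases Nat.eq_zero_or_pos n with rfl | hn
  · rfl
  · rw [s, Nat.digits_def' (by norm_num) (by omega), List.sum_cons, Nat.mul_mod_right,
      Nat.mul_div_cancel_left _ (by norm_num), zero_add, s]

lemma s_odd (n : ℕ) : s (2 * n + 1) = s n + 1 := by
  rw [s, Nat.digits_def' (by norm_num) (by omega), List.sum_cons, Nat.mul_add_mod,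
    show (2 * n + 1) / 2 = n by omega, s, add_comm]

lemma val_fact (n : ℕ) : padicValNat 2 n.factorial + s n = n := by
  induction n using Nat.strong_induction_on with
  | _ n ih =>
    obtain ⟨m, rfl | rfl⟩ := Nat.even_or_odd' n
    · rcases Nat.eq_zero_or_pos m with rfl | hm
      · simp [s]
      · have := ih m (by omega)
        rw [padicValNat_factorial_mul, s_double]; omega
    · have := ih m (by omega)
      rw [padicValNat_factorial_mul_add m (by norm_num), padicValNat_factorial_mul, s_odd]; omega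

lemma val_choose (a b : ℕ) : padicValNat 2 ((a + b).choose a) + s (a + b) = s a + s b := by
  have h := congrArg (padicValNat 2) (Nat.add_choose_mul_factorial_mul_factorial a b)
  have h0 : (a + b).choose b ≠ 0 := (Nat.choose_pos (by omega)).ne'
  rw [padicValNat.mul (mul_ne_zero h0 a.factorial_ne_zero) b.factorial_ne_zero,
    padicValNat.mul h0 a.factorial_ne_zero, ← Nat.choose_symm_add] at h
  have h1 := val_fact a
  have h2 := val_fact b
  have h3 := val_fact (a + b)
  omega

lemma s_pos (n : ℕ) (hn : n ≠ 0) : 1 ≤ s n := by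
  induction n using Nat.strong_induction_on with
  | _ n ih =>
    obtain ⟨m, rfl | rfl⟩ := Nat.even_or_odd' n
    · rw [s_double]; exact ih m (by omega) (by omega)
    · rw [s_odd]; omega

lemma s_eq_one (n : ℕ) : s n = 1 ↔ ∃ j, n = 2 ^ j := by
  constructor
  · induction n using Nat.strong_induction_on with
    | _ n ih =>
      intro h
      obtain ⟨m, rfl | rfl⟩ := Nat.even_or_odd' n
      · rcases Nat.eq_zero_or_pos m with rfl | hm
        · simp [s] at h
        · rw [s_double] at h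
          obtain ⟨j, rfl⟩ := ih m (by omega) h
          exact ⟨j + 1, by ring⟩
      · rw [s_odd] at h
        rcases Nat.eq_zero_or_pos m with rfl | hm
        · exact ⟨0, rfl⟩
        · have := s_pos m (by omega); omega
  · rintro ⟨j, rfl⟩
    induction j with
    | zero => simp [s]
    | succ j ih => rw [pow_succ', s_double, ih]

lemma s_three_pow (j : ℕ) : s (3 * 2 ^ j) = 2 := by
  induction j with
  | zero => simp [s]
  | succ j ih => rw [pow_succ', mul_left_comm, s_double, ih]

lemma val_t (k : ℕ) : padicValNat 2 ((6 * k).choose (3 * k) * (3 * k).choose k) = 2 * s k := by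
  have h1 := val_choose (3 * k) (3 * k)
  have h2 := val_choose k (2 * k)
  rw [show 3 * k + 3 * k = 2 * (3 * k) by ring, s_double, show 2 * (3 * k) = 6 * k by ring] at h1
  rw [show k + 2 * k = 3 * k by ring, s_double] at h2
  rw [padicValNat.mul (Nat.choose_pos (by omega)).ne' (Nat.choose_pos (by omega)).ne']
  omega

lemma sum_symm (n : ℕ) (F : ℕ → ZMod 4) (h1 : ∀ k ≤ n, F (n - k) = F k)
    (h2 : ∀ k ≤ n, F k + F k = 0) (h3 : ∀ k, n - k = k → k ≤ n → F k = 0) :
    ∑ k ∈ range (n + 1), F k = 0 := by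
  refine sum_involution (fun k _ => n - k) (fun k hk => ?_) (fun k hk h h' => h ?_)
    (fun k hk => mem_range.2 (by omega)) (fun k hk => ?_)
  · rw [h1 k (Nat.lt_succ_iff.1 (mem_range.1 hk)), h2 k (Nat.lt_succ_iff.1 (mem_range.1 hk))]
  · exact h3 k h' (Nat.lt_succ_iff.1 (mem_range.1 hk))
  · have := mem_range.1 hk
    show n - (n - k) = k
    omega

lemma odd_part (N v : ℕ) (hN : N ≠ 0) (h : padicValNat 2 N = v) : ∃ u, N = 2 ^ v * (2 * u + 1) := by
  obtain ⟨e, c, ⟨u, rfl⟩, rfl⟩ := Nat.exists_eq_two_pow_mul_odd hN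
  rw [padicValNat.mul (by positivity) (by omega), padicValNat.prime_pow,
    padicValNat.eq_zero_of_not_dvd (by omega), add_zero] at h
  exact ⟨u, by rw [h]⟩

lemma main (n : ℕ) (hn : 1 ≤ n) (t : ℕ → ℕ) (ht0 : ∀ k, t k ≠ 0)
    (ht : ∀ k, padicValNat 2 (t k) = 2 * s k) :
    ∃ R, ∑ k ∈ range (n + 1), t k * t (n - k) = 2 ^ (2 * s n) * R ∧
      R % 4 = (2 * n).choose n % 4 := by
  choose u hu using fun k => odd_part (t k) _ (ht0 k) (ht k)
  have hc : ∀ k ≤ n, padicValNat 2 (n.choose k) + s n = s k + s (n - k) := fun k hk => by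
    have := val_choose k (n - k)
    rwa [Nat.add_sub_cancel' hk] at this
  set f : ℕ → ℕ := fun k => 4 ^ padicValNat 2 (n.choose k) * ((2 * u k + 1) * (2 * u (n - k) + 1))
    with hf
  refine ⟨∑ k ∈ range (n + 1), f k, ?_, ?_⟩
  · rw [mul_sum]
    refine sum_congr rfl fun k hk => ?_
    have := hc k (Nat.lt_succ_iff.1 (mem_range.1 hk))
    have e : 2 ^ (2 * s k) * 2 ^ (2 * s (n - k)) = 2 ^ (2 * s n) * 4 ^ padicValNat 2 (n.choose k) := by
      rw [show 4 = 2 ^ 2 from rfl, ← pow_mul, ← pow_add, ← pow_add]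
      congr 1
      omega
    conv_lhs => rw [hu k, hu (n - k)]
    simp only [hf]
    linear_combination ((2 * u k + 1) * (2 * u (n - k) + 1)) * e
  · rw [← ZMod.natCast_eq_natCast_iff', ← Nat.sum_range_choose_sq, ← sub_eq_zero, Nat.cast_sum,
      Nat.cast_sum, ← sum_sub_distrib]
    have four : (4 : ZMod 4) = 0 := rfl
    have even : ∀ k ≤ n, padicValNat 2 (n.choose k) ≠ 0 →
        ((f k : ℕ) : ZMod 4) - ((n.choose k ^ 2 : ℕ) : ZMod 4) = 0 := fun k hk h => by
      obtain ⟨c, hc⟩ : 2 ∣ n.choose k := dvd_of_one_le_padicValNat (by omega)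
      simp only [hf]
      push_cast
      rw [four, zero_pow h, hc]
      push_cast
      linear_combination (-(c : ZMod 4) ^ 2) * four
    refine sum_symm n _ (fun k hk => ?_) (fun k hk => ?_) (fun k h hk => even k hk ?_)
    · simp only [hf, Nat.choose_symm hk, Nat.sub_sub_self hk, mul_comm (2 * u k + 1)]
    · by_cases h : padicValNat 2 (n.choose k) = 0
      · obtain ⟨c, hc⟩ := odd_part _ _ (Nat.choose_pos hk).ne' h
        simp only [hf]
        rw [h, hc]
        push_cast
        linear_combination (2 * u k * u (n - k) + u k + u (n - k) - 2 * c ^ 2 - 2 * c :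
          ZMod 4) * four
      · rw [even k hk h, add_zero]
    · have h1 := hc k hk
      have h2 : n = 2 * k := by omega
      have h3 := s_pos k (by omega)
      rw [h, h2, s_double] at h1
      rw [h2]
      omega

/-- The `2`-adic valuation of the (nonzero) number `a(n)` is at least `3`, with equality exactly
when `n` is a power of two. -/
theorem result : ∀ n : ℕ, 1 ≤ n → ∀ a : ℚ,
    a = (∑ k ∈ range (n + 1), (((6 * k).choose (3 * k) * (3 * k).choose k : ℕ) : ℚ) *
          (((6 * (n - k)).choose (3 * (n - k)) * (3 * (n - k)).choose (n - k) : ℕ) : ℚ)) /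
        ((2 * (n : ℚ) - 1) * ((3 * n).choose n : ℚ)) →
      a ≠ 0 ∧ 3 ≤ padicValRat 2 a ∧ (padicValRat 2 a = 3 ↔ ∃ j, n = 2 ^ j) := by
  intro n hn a ha
  have ht0 : ∀ k, (6 * k).choose (3 * k) * (3 * k).choose k ≠ 0 := fun k =>
    mul_ne_zero (Nat.choose_pos (by omega)).ne' (Nat.choose_pos (by omega)).ne'
  obtain ⟨R, h1, h2⟩ := main n hn _ ht0 val_t
  have hS : ∑ k ∈ range (n + 1), (6 * k).choose (3 * k) * (3 * k).choose k *
      ((6 * (n - k)).choose (3 * (n - k)) * (3 * (n - k)).choose (n - k)) ≠ 0 := fun h =>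
    mul_ne_zero (ht0 0) (ht0 (n - 0)) (sum_eq_zero_iff.1 h 0 (mem_range.2 (by omega)))
  have hR : R ≠ 0 := by rintro rfl; exact hS (by rw [h1, mul_zero])
  obtain ⟨m, rfl⟩ := Nat.exists_eq_add_of_le' hn
  have hD : (2 * m + 1) * (3 * (m + 1)).choose (m + 1) ≠ 0 :=
    mul_ne_zero (by omega) (Nat.choose_pos (by omega)).ne'
  have ha' : a = ((2 ^ (2 * s (m + 1)) * R : ℕ) : ℚ) /
      (((2 * m + 1) * (3 * (m + 1)).choose (m + 1) : ℕ) : ℚ) := by
    rw [ha, ← h1]
    push_cast
    congr 2
    ring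
  have hN : 2 ^ (2 * s (m + 1)) * R ≠ 0 := by positivity
  have h3 := val_choose (m + 1) (2 * (m + 1))
  rw [show m + 1 + 2 * (m + 1) = 3 * (m + 1) by ring, s_double] at h3
  have hv : padicValRat 2 a = padicValNat 2 R + s (3 * (m + 1)) := by
    rw [ha', padicValRat.div (Nat.cast_ne_zero.2 hN) (Nat.cast_ne_zero.2 hD), padicValRat.of_nat,
      padicValRat.of_nat, padicValNat.mul (by positivity) hR, padicValNat.prime_pow,
      padicValNat.mul (by omega) (Nat.choose_pos (by omega)).ne',
      padicValNat.eq_zero_of_not_dvd (show ¬ 2 ∣ 2 * m + 1 by omega)]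
    omega
  have h4 := val_choose (m + 1) (m + 1)
  rw [← two_mul, s_double] at h4
  have hC : (2 * (m + 1)).choose (m + 1) ≠ 0 := (Nat.choose_pos (by omega)).ne'
  have a1 := padicValNat_dvd_iff_le (p := 2) (n := 1) hR
  have a2 := padicValNat_dvd_iff_le (p := 2) (n := 2) hR
  have b1 := padicValNat_dvd_iff_le (p := 2) (n := 1) hC
  have b2 := padicValNat_dvd_iff_le (p := 2) (n := 2) hC
  have h5 := s_pos (m + 1) (by omega)
  have h6 := s_pos (3 * (m + 1)) (by omega)
  have h7 : s (3 * (m + 1)) ≠ 1 := fun h => by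
    obtain ⟨j, hj⟩ := (s_eq_one _).1 h
    have := Nat.Prime.dvd_of_dvd_pow (by norm_num) (show 3 ∣ 2 ^ j from ⟨_, hj.symm⟩)
    omega
  norm_num only at a1 a2 b1 b2
  refine ⟨ha' ▸ div_ne_zero (Nat.cast_ne_zero.2 hN) (Nat.cast_ne_zero.2 hD), by omega,
    fun h => (s_eq_one _).1 (by omega), fun h => ?_⟩
  have h8 := (s_eq_one _).2 h
  obtain ⟨j, hj⟩ := h
  have h9 := s_three_pow j
  rw [← hj] at h9
  omega

end Pool.Agent.Results.MP_49e939_nt.Val
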